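import Pool.Agent.H.MP_a1e9e0_gt.A
import Pool.Agent.H.MP_3bc7a7_gt.A

set_option autoImplicit false

namespace Pool.Agent.Results.MP_a1e9e0_gt.Hausdorff

open Set Function Filter Topology Pool.Agent.H.MP_a1e9e0_gt.A Pool.Agent.H.MP_3bc7a7_gt.A

/-- The covering property for closed sets and decompositions indexed by `I`, with countable
subfamilies. -/
def Piecewise (X : Type) [TopologicalSpace X] (I : Type) : Prop :=
  ∀ F : Set X, IsClosed F → ∀ 𝒰 : I → Set (Set X), (∀ i, ∀ U ∈ 𝒰 i, IsOpen U) →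
    F ⊆ ⋃₀ (⋃ i, 𝒰 i) → ∃ 𝒱 : I → Set (Set X), (∀ i, 𝒱 i ⊆ 𝒰 i ∧ (𝒱 i).Countable) ∧
      F ⊆ ⋃ i, closure (⋃₀ 𝒱 i)

open Cardinal in
theorem card (M : Type) [Countable M] : #((Set (Set ℕ) × Finset J × M) ⊕
    (ℕ → Ultrafilter ℕ) × J × (ℕ → Set (Set ℕ))) ≤ #(Ultrafilter ℕ) ∧ #(J × ℕ) < #(Set (Set ℕ)) := by
  have u : #(Ultrafilter ℕ) = 2 ^ 𝔠 := le_antisymm ((mk_le_of_injective (f := fun u => u.1.sets)
    fun u v h => Ultrafilter.coe_injective (filter_eq h)).trans_eq (by simp)) pos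
  have c : 𝔠 ≤ 2 ^ 𝔠 := (cantor _).le
  have a := aleph0_le_continuum.trans c
  have b := aleph_one_le_continuum.trans c
  have m : ∀ {x y : Cardinal}, x ≤ 2 ^ 𝔠 → y ≤ 2 ^ 𝔠 → x * y ≤ 2 ^ 𝔠 := fun k l =>
    (mul_le_mul' k l).trans_eq (mul_eq_self a)
  have : Infinite J := infinite_iff.2 (by simp)
  refine ⟨?_, by simpa using aleph_one_le_continuum.trans_lt (cantor _)⟩
  simp only [mk_sum, mk_prod, lift_id, mk_set, mk_finset_of_infinite, mk_ord_toType, mk_pi,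
    prod_const, mk_nat, u, two_power_aleph0, ← power_mul, continuum_mul_aleph0]
  exact add_le_of_le a (m le_rfl (m b (mk_le_aleph0.trans a))) (m le_rfl (m b le_rfl))

theorem bdd (C : Set J) (h : C.Countable) : ∃ b, ∀ a ∈ C, a < b := by
  by_contra! k
  have := Cardinal.le_aleph0_iff_set_countable.2 ((h.biUnion fun a _ => cI a).mono
    (fun b _ => (k b).elim fun a l => mem_biUnion l.1 l.2 : univ ⊆ _))
  simp at this

theorem result : ∃ (X : Type) (_ : TopologicalSpace X), T2Space X ∧ Piecewise X ℕ ∧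
    ∃ I : Type, ¬ Piecewise X I := by
  classical
  obtain ⟨E, M, _, ⟨m₀⟩, P, e, p, π⟩ := pib
  let X := (Set (Set ℕ) × Finset J × M) ⊕ (ℕ → Ultrafilter ℕ) × J × (ℕ → Set (Set ℕ))
  let Q : X → Set (Ultrafilter ℕ) := Sum.elim (fun x => P x.2.2) fun x =>
    if (range x.1).Infinite ∧ range x.1 ⊆ E then range x.1 else P m₀
  have q : ∀ x, (Q x).Infinite ∧ Q x ⊆ E := Sum.rec (fun x => ⟨(p _).1, (p _).2.2⟩) fun x => by
    simp only [Q, Sum.elim_inr]
    split_ifs with h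
    exacts [h, ⟨(p _).1, (p _).2.2⟩]
  obtain ⟨t, t1, t2⟩ := inj (fun x => {u | ∀ A ∈ u, ∃ v ∈ Q x, A ∈ v}) fun x => by
    obtain ⟨f, k, l⟩ := big _ (q x).1
    exact (card M).1.trans (Cardinal.mk_le_of_injective (f := fun u => ⟨f u, l u⟩)
      fun u v h => k (congrArg Subtype.val h))
  have t3 : ∀ x F, IsClosed F → Q x ⊆ F → t x ∈ F := fun x F k l => k.closure_subset
    (ultrafilterBasis_is_basis.mem_closure_iff.2 (forall_mem_range.2 fun A m =>
      (t2 x A m).imp fun v h => ⟨h.2, l h.1⟩))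
  let r : Prop × Set (Set (Set ℕ)) → Prop × Set (Set (Set ℕ)) → Prop := fun v w =>
    w.2 ⊆ v.2 ∧ (v.1 → w = v)
  let f : X → J → Prop × Set (Set (Set ℕ)) := Sum.elim
    (fun x i => (True, {w | i ∉ x.2.1 ∧ w = x.1})) fun x i => (False, {w | i < x.2.1 ∨ w ∈ range x.2.2})
  let N : X → Set ℕ → Finset J → Set X := fun x A b => {y | A ∈ t y ∧ ∀ i ∈ b, r (f x i) (f y i)}
  letI : TopologicalSpace X :=
    { IsOpen O := ∀ x ∈ O, ∃ A ∈ t x, ∃ b, N x A b ⊆ O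
      isOpen_univ := fun x _ => ⟨_, univ_mem, ∅, subset_univ _⟩
      isOpen_inter := fun U V k l x m =>
        let ⟨A, a1, b, a2⟩ := k x m.1
        let ⟨B, b1, c, b2⟩ := l x m.2
        ⟨_, inter_mem a1 b1, b ∪ c, fun y h => ⟨a2 ⟨mem_of_superset h.1 inter_subset_left,
          fun i j => h.2 i (Finset.mem_union_left _ j)⟩, b2 ⟨mem_of_superset h.1 inter_subset_right,
            fun i j => h.2 i (Finset.mem_union_right _ j)⟩⟩⟩
      isOpen_sUnion := fun c k x ⟨U, l, m⟩ => let ⟨A, a1, b, a2⟩ := k U l x m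
        ⟨A, a1, b, a2.trans (subset_sUnion_of_mem l)⟩ }
  have n1 : ∀ x A b, IsOpen (N x A b) := fun x A b y k => ⟨A, k.1, b, fun z l => ⟨l.1, fun i j =>
    ⟨(l.2 i j).1.trans (k.2 i j).1, fun m => ((l.2 i j).2 ((k.2 i j).2 m ▸ m :)).trans
      ((k.2 i j).2 m)⟩⟩⟩
  have n2 : ∀ x, ∀ A ∈ t x, ∀ b, x ∈ N x A b := fun x A k b =>
    ⟨k, fun _ _ => ⟨subset_rfl, fun _ => rfl⟩⟩
  have n3 : ∀ x G, (∀ A ∈ t x, ∀ b, (N x A b ∩ G).Nonempty) → x ∈ closure G := fun x G k =>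
    mem_closure_iff.2 fun O l m => let ⟨A, a1, b, a2⟩ := l x m
      (k A a1 b).mono (inter_subset_inter_left _ a2)
  obtain ⟨a₀, -⟩ := bdd _ countable_empty
  refine ⟨X, inferInstance, ⟨fun x y k => ?_⟩, fun F c 𝒰 o k => ?_, J, fun h => ?_⟩
  · obtain ⟨A, l, m⟩ : ∃ A ∈ t x, Aᶜ ∈ t y := by_contra fun l => k (t1 (Ultrafilter.eq_of_le
      fun A m => by_contra fun v =>
        l ⟨Aᶜ, Ultrafilter.compl_mem_iff_notMem.2 v, (compl_compl A).symm ▸ m⟩))
    exact ⟨_, _, n1 x A ∅, n1 y Aᶜ ∅, n2 _ _ l _, n2 _ _ m _, disjoint_left.2 fun z v w =>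
      Ultrafilter.compl_mem_iff_notMem.1 w.1 v.1⟩
  · have : ∀ x ∈ F, ∃ n O A b, O ∈ 𝒰 n ∧ A ∈ t x ∧ N x A b ⊆ O := fun x l => by
      obtain ⟨O, m, v⟩ := k l
      obtain ⟨n, m⟩ := mem_iUnion.1 m
      obtain ⟨A, a1, b, a2⟩ := o n O m x v
      exact ⟨n, O, A, b, m, a1, a2⟩
    choose! n O A b o1 o2 o3 using this
    let G : ℕ × M → J → X → Prop := fun p η z => z ∈ F ∧ n z = p.1 ∧ (∀ v ∈ P p.2, A z ∈ v) ∧
      ∀ i w, i < η ∨ w.2 = ∅ → r (f z i) w
    have : Nonempty X := ⟨.inl (∅, ∅, m₀)⟩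
    choose! ζ z1 using fun p η (h : ∃ z, G p η z) => h
    choose ε e1 using fun p => show ∃ η, (∃ z, G p η z) → ∀ η, ∃ z, G p η z from
      (em _).elim (fun h => ⟨a₀, fun _ => h⟩) fun h => (not_forall.1 h).imp fun _ l m => (l m).elim
    choose B b1 using fun η => bdd (insert η (⋃ p, b (ζ p η)))
      ((countable_iUnion fun p => (b _).countable_toSet).insert _)
    let δ : ℕ → J := Nat.rec a₀ fun _ => B
    let R := {x | ∃ j, ∀ A ∈ t x, ∃ m, (∀ η, ∃ z, G (j, m) η z) ∧ ∃ u ∈ P m, A ∈ u}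
    let Z := (fun p : (ℕ × M) × ℕ => ζ p.1 (δ p.2)) '' {p | ∀ η, ∃ z, G p.1 η z} ∪ F \ R
    have z2 : Z ⊆ F := union_subset (image_subset_iff.2 fun p h => (z1 _ _ (h _)).1) diff_subset
    have z3 : (F \ R).Finite := by_contra fun h => by
      let x := Set.Infinite.natEmbedding _ h
      have : ∀ x, ∃ θ C, Set.Countable C ∧ ∀ i, θ ≤ i → (f x i).2 ⊆ C := Sum.rec
        (fun x => ⟨a₀, {x.1}, countable_singleton _, fun _ _ _ => And.right⟩) fun x =>
          ⟨x.2.1, _, countable_range x.2.2, fun _ l _ m => m.resolve_left l.not_gt⟩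
      choose θ C c1 c2 using this
      obtain ⟨η, l⟩ := bdd _ ((countable_range ε).union (countable_range fun k => θ (x k)))
      obtain ⟨S, m⟩ := countable_iff_exists_subset_range.1 (countable_iUnion fun k => c1 (x k))
      have v : ∀ A ∈ t (.inr (fun k => t (x k), η, S)), ∃ k, A ∈ t (x k) := fun A v => by
        have := t2 _ A v
        simp only [Q, Sum.elim_inr] at this
        rw [if_pos ⟨infinite_range_of_injective (t1.comp (Subtype.val_injective.comp x.injective)),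
          range_subset_iff.2 fun k => t3 _ _ e (q _).2⟩] at this
        exact exists_range_iff.1 this
      have w : Sum.inr (fun k => t (x k), η, S) ∈ F := c.closure_subset (n3 _ _ fun A w b =>
        (v A w).elim fun k y => ⟨x k, ⟨y, fun i _ => ⟨fun g z => (lt_or_ge i η).imp_right fun s =>
          m (mem_iUnion.2 ⟨k, c2 _ i ((l _ (.inr ⟨k, rfl⟩)).le.trans s) z⟩), nofun⟩⟩, (x k).2.1⟩)
      obtain ⟨k, y⟩ := v _ (o2 _ w)
      refine (x k).2.2 ⟨n (.inr (fun k => t (x k), η, S)), fun A' z => ?_⟩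
      obtain ⟨j, s⟩ := π _ (t3 _ _ e (q _).2) _ (inter_mem z y)
      obtain ⟨u, g⟩ := (p j).1.nonempty
      exact ⟨j, e1 _ ⟨_, w, rfl, fun v d => mem_of_superset (s v d) inter_subset_right, fun i w d =>
        ⟨d.elim (fun d _ _ => .inl (d.trans (l _ (.inl ⟨_, rfl⟩)))) fun d => d ▸ empty_subset _,
          nofun⟩⟩, u, g, mem_of_superset (s u g) inter_subset_left⟩
    refine ⟨fun j => O '' {x ∈ Z | n x = j}, fun j => ⟨image_subset_iff.2 fun x l =>
      l.2 ▸ o1 x (z2 l.1), ((((to_countable _).image _).union z3.countable).mono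
        (sep_subset _ _)).image _⟩, fun x l => mem_iUnion.2 ?_⟩
    by_cases h : x ∈ R
    swap
    · exact ⟨_, subset_closure ⟨_, ⟨x, ⟨.inr ⟨l, h⟩, rfl⟩, rfl⟩, o3 x l (n2 _ _ (o2 x l) _)⟩⟩
    refine h.imp fun j h => n3 _ _ fun A' v b' => ?_
    obtain ⟨m, g, u, w, y⟩ := h A' v
    obtain ⟨k, d⟩ : ∃ k, ∀ i ∈ b', i < δ (k + 1) → i < δ k :=
      ((eventually_all_finset b').2 fun i _ => (em (∃ k, i < δ k)).elim (fun ⟨k, h⟩ =>
        (eventually_ge_atTop k).mono fun l s _ => h.trans_le (monotone_nat_of_le_succ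
          (fun n => (b1 _ _ (.inl rfl)).le) s)) fun h => .of_forall fun k s => (h ⟨k + 1, s⟩).elim).exists
    obtain ⟨g1, g2, g3, g4⟩ := z1 _ _ (g (δ k))
    obtain ⟨m', s⟩ := π u ((p m).2.2 w) _ (inter_mem y (g3 u w))
    obtain ⟨v₀, α, a⟩ : ∃ v₀, ∃ α : Set J, ∀ a i, (i ∈ a ↔ i ∈ α) →
        r (f x i) (f (.inl (v₀, a, m')) i) := by
      rcases x with x | x
      · exact ⟨x.1, x.2.1, fun a i h => by simp [r, f, h]⟩
      · exact ⟨∅, univ, fun a i h => ⟨fun _ l => (l.1 (h.2 trivial)).elim, nofun⟩⟩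
    have s := fun a => s _ (t3 (.inl (v₀, a, m')) _ (p m').2.1 subset_rfl)
    let a' := b'.filter (· ∈ α) ∪ @Finset.filter _ (δ k ≤ ·) (fun _ => Classical.dec _) (b (ζ (j, m) (δ k)))
    refine ⟨.inl (v₀, a', m'),
      ⟨mem_of_superset (s _) inter_subset_left, fun i h => a _ i ?_⟩, _,
      ⟨_, ⟨.inl ⟨((j, m), k), g, rfl⟩, g2⟩, rfl⟩, o3 _ g1 ⟨mem_of_superset (s _) inter_subset_right,
        fun i h => g4 i _ ((lt_or_ge i _).imp_right fun l => by simp [f, a', h, show δ k ≤ i from l])⟩⟩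
    simp only [a', Finset.mem_union, Finset.mem_filter, h, true_and, or_iff_left_iff_imp]
    exact fun l => ((d i h (b1 _ _ (.inr (mem_iUnion.2 ⟨_, l.1⟩)))).not_ge l.2).elim
  obtain ⟨𝒱, k, l⟩ := h univ isClosed_univ
    (fun i => range fun S : ℕ → Set (Set ℕ) => {x | (f x i).2 ⊆ range S})
    (fun i => forall_mem_range.2 fun S x k => ⟨_, univ_mem, {i}, fun y l =>
      (l.2 i (Finset.mem_singleton_self i)).1.trans k⟩) (by
      rintro (x | x) -
      exacts [⟨_, mem_iUnion.2 ⟨a₀, fun _ => x.1, rfl⟩, fun w l => ⟨0, l.2.symm⟩⟩,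
        ⟨_, mem_iUnion.2 ⟨x.2.1, x.2.2, rfl⟩, fun w l => l.resolve_left (lt_irrefl _)⟩])
  choose! S s using fun i U (m : U ∈ 𝒱 i) => (k i).1 m
  choose g m using fun i => countable_iff_exists_subset_range.1
    ((k i).2.biUnion fun U _ => countable_range (S i U))
  obtain ⟨v, w⟩ := not_forall.1 fun h : Surjective (uncurry g) =>
    (card M).2.not_ge (Cardinal.mk_le_of_surjective h)
  obtain ⟨i, y⟩ := mem_iUnion.1 (l (mem_univ (.inl (v, ∅, m₀))))
  obtain ⟨x, z, U, a, b⟩ := mem_closure_iff.1 y _ (n1 _ univ {i}) (n2 _ _ univ_mem _)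
  rw [← s i U a] at b
  obtain ⟨j, c⟩ := m i (mem_biUnion a (b (((z.2 i (Finset.mem_singleton_self i)).2 trivial).symm ▸
    ⟨Finset.notMem_empty i, rfl⟩ : v ∈ (f x i).2)))
  exact w ⟨(i, j), c⟩

end Pool.Agent.Results.MP_a1e9e0_gt.Hausdorff
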